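import Pool.Agent.Q31.GLW.Stm

/-!
# Project GLW, job IND
-/

set_option autoImplicit false

namespace Pool.Agent.Q208.GLW

open Pool.Agent.Q31.GLW Module Cardinal

theorem core {F V Q : Type} [Field F] [AddCommGroup V] [Module F V] [AddCommGroup Q] [Module F Q]
    (π f : V →ₗ[F] Q) (H : ∀ z, π z ≠ 0 → ∃ c : F, f z = c • π z) (z1 z2 : V)
    (hi : ∀ a b : F, a • π z1 + b • π z2 = 0 → a = 0 ∧ b = 0) : ∃ c : F, ∀ z, f z = c • π z := by
  have A : ∀ (z z' : V) (c c' : F), (∀ a b : F, a • π z + b • π z' = 0 → a = 0 ∧ b = 0) →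
      f z = c • π z → f z' = c' • π z' → c = c' := by
    intro z z' c c' hP h h'
    have hne : π (z + z') ≠ 0 := by
      intro h0
      have := hP 1 1 (by rw [one_smul, one_smul, ← map_add, h0])
      exact one_ne_zero this.1
    obtain ⟨d, hd⟩ := H _ hne
    rw [map_add, map_add, h, h'] at hd
    have e : (c - d) • π z + (c' - d) • π z' = 0 := by
      calc (c - d) • π z + (c' - d) • π z' = c • π z + c' • π z' - d • (π z + π z') := by module
        _ = 0 := sub_eq_zero.2 hd
    obtain ⟨h1, h2⟩ := hP _ _ e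
    rw [sub_eq_zero.1 h1, sub_eq_zero.1 h2]
  have hz1 : π z1 ≠ 0 := by
    intro h0
    have := hi 1 0 (by rw [h0, smul_zero, zero_smul, add_zero])
    exact one_ne_zero this.1
  have hz2 : π z2 ≠ 0 := by
    intro h0
    have := hi 0 1 (by rw [h0, smul_zero, zero_smul, add_zero])
    exact one_ne_zero this.2
  obtain ⟨c, hc⟩ := H _ hz1
  obtain ⟨c2, hc2⟩ := H _ hz2
  have hcc : c = c2 := A z1 z2 c c2 hi hc hc2
  refine ⟨c, fun z => ?_⟩
  by_cases h0 : π z = 0
  · have hp : π (z1 + z) = π z1 := by rw [map_add, h0, add_zero]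
    obtain ⟨d, hd⟩ := H (z1 + z) (by rw [hp]; exact hz1)
    have hdc : d = c2 := A (z1 + z) z2 d c2 (by rw [hp]; exact hi) hd hc2
    rw [hp, map_add, hc, hdc, ← hcc] at hd
    rw [h0, smul_zero]
    exact left_eq_add.1 hd.symm
  · obtain ⟨d, hd⟩ := H z h0
    have hdc : d = c := by
      by_cases hP : ∀ a b : F, a • π z + b • π z1 = 0 → a = 0 ∧ b = 0
      · exact A z z1 d c hP hd hc
      · rw [hcc]
        refine A z z2 d c2 (fun a b hab => ?_) hd hc2
        push Not at hP
        obtain ⟨a', b', h1, h2⟩ := hP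
        have ha' : a' ≠ 0 := by
          intro ha'
          rw [ha', zero_smul, zero_add] at h1
          rcases smul_eq_zero.1 h1 with h | h
          · exact h2 ha' h
          · exact hz1 h
        have hb' : b' ≠ 0 := by
          intro hb'
          rw [hb', zero_smul, add_zero] at h1
          rcases smul_eq_zero.1 h1 with h | h
          · exact ha' h
          · exact h0 h
        have e : (-(a * b')) • π z1 + (a' * b) • π z2 = 0 := by
          calc (-(a * b')) • π z1 + (a' * b) • π z2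
              = a' • (a • π z + b • π z2) - a • (a' • π z + b' • π z1) := by module
            _ = 0 := by rw [hab, h1, smul_zero, smul_zero, sub_zero]
        obtain ⟨h3, h4⟩ := hi _ _ e
        constructor
        · rcases mul_eq_zero.1 (neg_eq_zero.1 h3) with h | h
          · exact h
          · exact absurd h hb'
        · rcases mul_eq_zero.1 h4 with h | h
          · exact absurd h ha'
          · exact h
    rw [hd, hdc]

theorem t_IND : S_IND := by
  intro F V _ _ _ k Z hs hp hZ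
  have hfin := hp.resolve_left hs
  by_contra hno
  push Not at hno
  have H : ∀ z, Z.mkQ z ≠ 0 → ∃ c : F, (Z.mkQ ∘ₗ (k : V →ₗ[F] V)) z = c • Z.mkQ z := by
    intro z hz
    obtain ⟨a, b, hab, hne⟩ := hno z
    have h0 : a • Z.mkQ z + b • Z.mkQ (k z) = 0 := by
      rw [← map_smul, ← map_smul, ← map_add]
      exact (Submodule.Quotient.mk_eq_zero Z).2 hab
    have hb : b ≠ 0 := by
      intro hb
      rw [hb, zero_smul, add_zero] at h0
      rcases smul_eq_zero.1 h0 with h | h
      · exact hne h hb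
      · exact hz h
    refine ⟨-(b⁻¹ * a), ?_⟩
    change Z.mkQ (k z) = _
    have e : Z.mkQ (k z) - (-(b⁻¹ * a)) • Z.mkQ z = 0 := by
      calc Z.mkQ (k z) - (-(b⁻¹ * a)) • Z.mkQ z
          = (b⁻¹ * b) • Z.mkQ (k z) - (-(b⁻¹ * a)) • Z.mkQ z := by
            rw [inv_mul_cancel₀ hb, one_smul]
        _ = b⁻¹ • (a • Z.mkQ z + b • Z.mkQ (k z)) := by module
        _ = 0 := by rw [h0, smul_zero]
    exact sub_eq_zero.1 e
  have hrk : ℵ₀ ≤ Module.rank F (V ⧸ Z) := by
    rw [← not_lt, Module.rank_lt_aleph0_iff]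
    exact hZ
  have h1 : 1 < Module.rank F (V ⧸ Z) := lt_of_lt_of_le Cardinal.one_lt_aleph0 hrk
  haveI : Nontrivial (V ⧸ Z) := rank_pos_iff_nontrivial.1 (lt_trans zero_lt_one h1)
  obtain ⟨x, hx⟩ := exists_ne (0 : V ⧸ Z)
  obtain ⟨y, hy⟩ := exists_linearIndependent_pair_of_one_lt_rank h1 hx
  obtain ⟨z1, rfl⟩ := Z.mkQ_surjective x
  obtain ⟨z2, rfl⟩ := Z.mkQ_surjective y
  obtain ⟨c, hc⟩ := core Z.mkQ (Z.mkQ ∘ₗ (k : V →ₗ[F] V)) H z1 z2 (LinearIndependent.pair_iff.1 hy)
  have hle : LinearMap.range ((k : V →ₗ[F] V) - c • LinearMap.id) ≤ Z := by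
    rintro _ ⟨v, rfl⟩
    rw [← Submodule.Quotient.mk_eq_zero Z]
    change Z.mkQ (k v - c • v) = 0
    rw [map_sub, map_smul]
    exact sub_eq_zero.2 (hc v)
  haveI := hfin c
  exact hZ (Module.Finite.of_surjective (Submodule.factor hle) (Submodule.factor_surjective hle))

end Pool.Agent.Q208.GLW
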